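import Pool.Agent.N504.RS.Rel2
import Pool.Agent.N496.LT.C1
import Pool.Agent.N496.LT.C2
import Pool.Agent.N496.LT.E2
import Pool.Agent.Y132.SI.Up

/-!
# `ℓ²`-homology above half the dimension, for edge subdivisions of embedded flag complexes and all their full
subcomplexes, relative to a coloured full subcomplex

Let the flag complex of the finite graph `H` be embedded in the sphere of dimension `2 d` (for example a flag
triangulation of this sphere, of the sphere of dimension `2 d - 1`, or of a compact manifold with boundary or any
other compact polyhedron in one of these spheres), and let `B` be a set of vertices such that the full subcomplex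
spanned by `B` is properly coloured by `d + 1` colours. We show that there is an iterated edge subdivision `S` of `H`,
in which the full subcomplex spanned by `B` is not changed, such that for every full subcomplex `C` of `S` the
`ℓ²`-homology of the Davis complex of the right-angled Coxeter group of `C` vanishes in all the degrees `i > d`.

If the flag complex of `H` is piecewise linearly embedded in the sphere of dimension `n - 1` then the same is true
for `S` and for all the full subcomplexes `C` of `S`, and so `cadim (W C) ≤ n` (`n = 2 d` or `n = 2 d + 1`).
-/

set_option autoImplicit false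

namespace Pool.Agent.Results.MP_ea75ba_gt.EmbeddedComplexes

open Module Pool.Agent.W907.SG Pool.Agent.Y132.SI Pool.Agent.R782.Bal Pool.Agent.N496.LT

/-- Let the flag complex of `H` be embedded in the unit sphere of the euclidean space of dimension `2 d + 1`, and let
the full subcomplex spanned by the set `B` of vertices be properly coloured by `d + 1` colours. Then there is an
iterated edge subdivision `S` of `H` which induces on `B` the same graph as `H` such that for each set `C` of vertices
of `S` and all `i > d` (1) the reduced `ℓ²`-homology of the Davis complex of the right-angled Coxeter group of the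
full subcomplex spanned by `C` vanishes in the degree `i`, (2) for each `M` there is a finite set `E` of nontrivial
elements of this group such that the `i`-th real Betti number of every subgroup `K` of finite index which contains no
conjugate of an element of `E` is at most the index of `K` divided by `M`. -/
theorem result : ∀ (d N : ℕ) (H : SimpleGraph (Fin N)), 1 ≤ d →
    ∀ f : (Fin N → ℝ) → EuclideanSpace ℝ (Fin (2 * d + 1)), ContinuousOn f (Rea H) → (∀ x ∈ Rea H, ‖f x‖ = 1) →
    Set.InjOn f (Rea H) →
    ∀ (B : Set (Fin N)) (c : Fin N → Fin (d + 1)), (∀ u ∈ B, ∀ v ∈ B, H.Adj u v → c u ≠ c v) →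
    ∃ (m : ℕ) (h : N ≤ m) (S : SimpleGraph (Fin m)), Sub H S ∧
      (∀ u ∈ B, ∀ v ∈ B, S.Adj (Fin.castLE h u) (Fin.castLE h v) ↔ H.Adj u v) ∧
      ∀ (C : Finset (Fin m)) (i : ℕ), d < i →
        L2Van (S.induce (C : Set (Fin m))) i ∧
        ∀ M : ℕ, ∃ E : Finset (W (S.induce (C : Set (Fin m)))), (1 : W (S.induce (C : Set (Fin m)))) ∉ E ∧
          ∀ K : Subgroup (W (S.induce (C : Set (Fin m)))), K.FiniteIndex →
            (∀ g ∈ E, ∀ x : W (S.induce (C : Set (Fin m))), x * g * x⁻¹ ∉ K) →
              M * finrank ℝ (HInv (S.induce (C : Set (Fin m))) K i) ≤ K.index := by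
  intro d N H hd f hf hf1 hfi B c hc
  obtain ⟨m, h, S, h1, h2, h3⟩ := Pool.Agent.N504.RS.rel2 (c2 c1) e2 H hd f hf hf1 hfi B c hc
  refine ⟨m, h, S, h1, h2, fun C i hi => ?_⟩
  have h4 : L2Van (S.induce (C : Set (Fin m))) i := h3 C i hi _ _
  exact ⟨h4, fun M => growth_one _ i h4 M⟩

end Pool.Agent.Results.MP_ea75ba_gt.EmbeddedComplexes
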