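import Pool.Agent.N13.VB.Main

/-!
# `ℓ²`-homology above half the dimension, and the number of vertices of the nerve

Let the flag complex `L` of the finite graph `G` be a real homology manifold with the homology of the `(n-1)`-sphere
(`HSph n G`), with `N` vertices. Always `N ≥ 2 n`. If `L` is a combinatorial sphere then the special subgroups
`W_A = W (G.induce A)` of the right-angled Coxeter group `W G` act geometrically on contractible `n`-manifolds with
boundary (regular neighbourhoods of their Davis complexes in the Davis manifold of `L`), so their cocompact action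
dimension is at most `n`. We bound the degrees with nonzero `ℓ²`-homology by the excess `N - 2 n` of the number of
vertices; for the join of `m` pentagons (`n = 2 m`, `N = 5 m`) the bound is attained.
-/

set_option autoImplicit false

namespace Pool.Agent.Results.MP_ea75ba_gt.VertexNumber

open Pool.Agent.W907.SG Pool.Agent.W907.SM Pool.Agent.TH652.Above Pool.Agent.Y132.SI Pool.Agent.N13.EU

/-- **Result.** Let `L` be a flag homology sphere of dimension `n - 1` with `N` vertices. (1) `b_i^(2)(W_A) = 0` for
all sets `A` of vertices and all `i > N - 2 n`, and for each `ε > 0` there is a finite set `E` of nontrivial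
elements of `W_A` such that for every subgroup `H` of finite index of `W_A` which contains no conjugate of an element
of `E` and for all `i > N - 2 n` the `i`-th real Betti number of `H` is at most `ε [W_A : H]`.
(2) If `N ≤ 5 n / 2` then `b_i^(2)(W_A) = 0` for all `A` and all `i > n / 2`, `b_i^(2)(W) = 0` for all `i ≠ n / 2`, and
`(-1)^(n/2) χ(W) ≥ 0` if `n` is even. (3) If `N < 5 n / 2` then `b_i^(2)(W_A) = 0` for all `A` and all `i ≥ n / 2`, all
`b_i^(2)(W)` are zero, and `χ(W) = 0`. -/
theorem result : ∀ (n : ℕ) (V : Type) [Fintype V] [LinearOrder V] (G : SimpleGraph V), HSph n G →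
    (∀ (A : Finset V) (i : ℕ), Fintype.card V < 2 * n + i → L2Van (G.induce (A : Set V)) i) ∧
    (∀ (A : Finset V) (ε : ℝ), 0 < ε → ∃ E : Finset (W (G.induce (A : Set V))),
      (1 : W (G.induce (A : Set V))) ∉ E ∧ ∀ H : Subgroup (W (G.induce (A : Set V))), H.FiniteIndex →
        (∀ g ∈ E, ∀ x : W (G.induce (A : Set V)), x * g * x⁻¹ ∉ H) →
          ∀ i : ℕ, Fintype.card V < 2 * n + i →
            (Module.finrank ℝ (HInv (G.induce (A : Set V)) H i) : ℝ) ≤ ε * H.index) ∧
    (2 * Fintype.card V ≤ 5 * n →
      (∀ (A : Finset V) (i : ℕ), n < 2 * i → L2Van (G.induce (A : Set V)) i) ∧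
      (∀ i : ℕ, 2 * i ≠ n → L2Van G i) ∧ ∀ d : ℕ, n = 2 * d → 0 ≤ (-1 : ℚ) ^ d * chiW G) ∧
    (2 * Fintype.card V < 5 * n →
      (∀ (A : Finset V) (i : ℕ), n ≤ 2 * i → L2Van (G.induce (A : Set V)) i) ∧
      (∀ i : ℕ, L2Van G i) ∧ chiW G = 0) := by
  classical
  intro n V _ _ G hS
  have h0 : ∀ (A : Finset V) (i : ℕ), Fintype.card V < 2 * n + i → L2Van (G.induce (A : Set V)) i :=
    fun A i hi => (Pool.Agent.N13.VB.main n V G hS).2 (A : Set V) i hi _ _
  have hG : ∀ i : ℕ, Fintype.card V < 2 * n + i → L2Van G i := fun i hi =>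
    (lv_univ G i).1 ((Pool.Agent.N13.VB.main n V G hS).2 Set.univ i hi) _ _
  have hs : 2 * Fintype.card V ≤ 5 * n → ∀ i : ℕ, 2 * i ≠ n → L2Van G i := fun h i hi =>
    singer_of_above hS (fun j hj => hG j (by omega)) i hi
  refine ⟨h0, fun A ε hε => Pool.Agent.R703.MO.growth_set (G.induce (A : Set V))
    (fun i => Fintype.card V < 2 * n + i) (fun i hi => h0 A i hi) ε hε, fun h => ⟨fun A i hi =>
    h0 A i (by omega), hs h, ?_⟩, fun h => ?_⟩
  · rintro d rfl
    exact chi_sign (m := d) G fun i hi => hs h i (by omega)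
  · have ha : ∀ i : ℕ, L2Van G i := by
      intro i
      by_cases hi : 2 * i = n
      · exact hG i (by omega)
      · exact hs (by omega) i hi
    exact ⟨fun A i hi => h0 A i (by omega), ha, (l2eul V G (n / 2) fun i _ => ha i).1 ha⟩

end Pool.Agent.Results.MP_ea75ba_gt.VertexNumber
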